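import Pool.Agent.Y184.HS.Blow2

/-!
# Blown-up Hirzebruch surfaces with Kähler metrics of positive holomorphic sectional curvature

For every `m ≥ 0`, the blow-up of the Hirzebruch surface `F_m` at a point carries a Kähler metric
whose holomorphic sectional curvature is positive everywhere. For `m = 0` this surface is the
projective plane blown up at two distinct points.
-/

set_option autoImplicit false

open scoped Manifold ContDiff Topology
open Pool.Agent.Y184.HS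

namespace Pool.Agent.Results.MP_3413ae_ag.BlownUpHirzebruch

theorem result (m : ℕ) :
    (∀ z : Fin 4 → ℂ, z ∈ Om (nuH m) kaH ↔ (z 0 ≠ 0 ∨ z 2 ≠ 0) ∧ (z 1 ≠ 0 ∨ z 3 ≠ 0)) ∧
    (∀ z w : Fin 4 → ℂ, Rel (nuH m) z w ↔ ∃ a b : ℂ, a ≠ 0 ∧ b ≠ 0 ∧
      w 0 = a * z 0 ∧ w 1 = b * z 1 ∧ w 2 = a * z 2 ∧ w 3 = a ^ m * b * z 3) ∧
    (IsManifold 𝓘(ℂ, Fin 2 → ℂ) ω (Hirz m) ∧ CompactSpace (Hirz m) ∧ T2Space (Hirz m) ∧
      ConnectedSpace (Hirz m)) ∧
    (IsManifold 𝓘(ℂ, Fin 2 → ℂ) ω (HirzB m) ∧ CompactSpace (HirzB m) ∧ T2Space (HirzB m) ∧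
      ConnectedSpace (HirzB m)) ∧
    (∃ π : HirzB m → Hirz m, IsBlowUp π (ctr m)) ∧
    HasPositiveHSC (n := 2) (HirzB m) :=
  ⟨mem_OmH m, rel_H m,
    ⟨isManifold_tor (isDelzantH m), compactSpace_tor (isDelzantH m), t2Space_tor (isDelzantH m),
      connectedSpace_tor (isDelzantH m)⟩,
    ⟨isManifold_tor (isDelzantB m), compactSpace_tor (isDelzantB m), t2Space_tor (isDelzantB m),
      connectedSpace_tor (isDelzantB m)⟩,
    ⟨blowDown m, isBlowUp m⟩, hasPositiveHSC_tor (isDelzantB m)⟩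

end Pool.Agent.Results.MP_3413ae_ag.BlownUpHirzebruch
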