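import Pool.Agent.Y184.HS.Kah

/-!
# Toric manifolds carry Kähler metrics of positive holomorphic sectional curvature

The compact toric manifold of every Delzant polytope, in every dimension, carries a Kähler metric
whose holomorphic sectional curvature is positive everywhere. In particular every surface obtained
from a Hirzebruch surface by successive blow-ups at torus-fixed points does.
-/

set_option autoImplicit false

open scoped Manifold ContDiff Topology
open Pool.Agent.Y184.HS

namespace Pool.Agent.Results.MP_3413ae_ag.ToricManifolds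

theorem result {n : ℕ} {F : Type} [Fintype F] {ν : F → Fin n → ℤ} {κ : F → ℝ}
    (h : IsDelzant ν κ) :
    @IsManifold ℂ _ (Fin n → ℂ) _ _ (Fin n → ℂ) _ 𝓘(ℂ, Fin n → ℂ) ω (Tor ν κ) _ (torCharted h) ∧
    CompactSpace (Tor ν κ) ∧ T2Space (Tor ν κ) ∧ ConnectedSpace (Tor ν κ) ∧
    @HasPositiveHSC n (Tor ν κ) _ (torCharted h) :=
  ⟨isManifold_tor h, compactSpace_tor h, t2Space_tor h, connectedSpace_tor h,
    hasPositiveHSC_tor h⟩

end Pool.Agent.Results.MP_3413ae_ag.ToricManifolds
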